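import Mathlib
import Pool.Agent.Work.MP_af11aa_nt.ResMain

open UpperHalfPlane
open Pool.Agent.Work.MP_af11aa_nt

/-- Mean square of the coefficients of a weight `3/2` cusp form of level `24 p` over a reduced
residue class `a` modulo an arbitrary `q`, uniformly in `q`. -/
theorem Pool.Agent.Work.MP_af11aa_nt.Retired.residueClassMeanSquare :
    ∃ C : ℝ, 0 < C ∧ ∀ p : ℕ, p.Prime →
      ∀ (χ : DirichletCharacter ℂ (24 * p)) (f : ℍ → ℂ), IsCuspForm (24 * p) χ f →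
      BddAbove (Set.range fun z : ℍ ↦ z.im ^ (3 / 2 : ℝ) * ‖f z‖ ^ 2) ∧
      ∀ q a : ℕ, 0 < q → Nat.Coprime a q → ∀ X : ℝ, 0 < X →
        ∑ n ∈ (Finset.Icc 1 ⌊X⌋₊).filter (fun n ↦ n ≡ a [MOD q]), ‖fourierCoeff f n‖ ^ 2 ≤
          C * (⨆ z : ℍ, z.im ^ (3 / 2 : ℝ) * ‖f z‖ ^ 2) *
            (Nat.card {u : (ZMod q)ˣ // u ^ 2 = 1} * ∏ l ∈ q.primeFactors, (1 + 1 / (l : ℝ))) *
            Real.sqrt X * (X / q + p * Real.sqrt (X * q) + p * q ^ 2) := by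
  refine ⟨cRes, cRes_pos, fun p hp χ f hf ↦ ?_⟩
  have : NeZero (24 * p) := ⟨by have := hp.pos; omega⟩
  have hbdd : BddAbove (Set.range fun z : ℍ ↦ z.im ^ (3 / 2 : ℝ) * ‖f z‖ ^ 2) := by
    obtain ⟨B, hB⟩ := exists_sup_bound hf
    exact ⟨B, by rintro _ ⟨z, rfl⟩; exact hB z⟩
  refine ⟨hbdd, fun q a hq hcop X hX ↦ ?_⟩
  have : NeZero q := ⟨hq.ne'⟩
  have hroot : Nat.card {u : (ZMod q)ˣ // u ^ 2 = 1} = rootCount q := by
    rw [Nat.card_eq_fintype_card, Fintype.card_subtype]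
    rfl
  rw [hroot]
  refine res_24p hp hf (ZMod.unitOfCoprime a hcop) (fun w ↦ le_ciSup hbdd w) hX _ ?_
  intro n hn
  rw [Finset.mem_filter, Finset.mem_Icc] at hn
  refine ⟨?_, (Nat.le_floor_iff hX.le).1 hn.1.2⟩
  rw [ZMod.coe_unitOfCoprime]
  exact (ZMod.natCast_eq_natCast_iff _ _ _).2 hn.2
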